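import Pool.Agent.Lib.MP_fa224b_lc.C.Split
import Pool.Agent.Lib.MP_fa224b_lc.C.MainC
import Pool.Agent.Lib.MP_fa224b_lc.C.VDefs

/-! An invariant function that is flat above cofinally many reals is uniformly dominated on a
cone.  The proof uses one game in which the moves cut the natural numbers into intervals. -/

namespace Pool.Agent.Lib.MP_fa224b_lc.D

open Encodable Filter MeasureTheory C C.Split C.MainC

/-- the first move of the play `x` that exceeds `m` is made by the second player -/
def Own (x : B) (m : ℕ) : Prop := ∃ i, m < x (2 * i + 1) ∧ ∀ j < 2 * i + 1, x j ≤ m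

/-- the winning condition of the first player -/
def Hit (v x : B) : Prop :=
  ∃ M, TLe M v ∧ ∃ᶠ k in atTop, ¬ Own x (M k) ∧ x (2 * k + 1) ≤ M k

theorem Hit.mono {v v' x : B} (h : Hit v x) (hv : TLe v v') : Hit v' x :=
  let ⟨M, h1, h2⟩ := h; ⟨M, h1.trans hv, h2⟩

theorem hit_iff {v x : B} : Hit v x ↔ ∃ e, Ev e v (tot e v) ∧
    ∃ᶠ k in atTop, ¬ Own x (tot e v k) ∧ x (2 * k + 1) ≤ tot e v k := by
  constructor
  · rintro ⟨M, h1, h2⟩
    obtain ⟨e, he⟩ := tle_iff_ev.1 h1
    exact ⟨e, he.eq_tot.symm ▸ he, he.eq_tot.symm ▸ h2⟩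
  · rintro ⟨e, h1, h2⟩
    exact ⟨_, tle_iff_ev.2 ⟨e, h1⟩, h2⟩

theorem meas_hit {X : Type} [MeasurableSpace X] {φ ψ : X → B} (hφ : Measurable φ)
    (hψ : Measurable ψ) : Measurable fun x => Hit (φ x) (ψ x) := by
  simp only [hit_iff, frequently_atTop, Own]
  refine Measurable.exists fun e => (meas_Ev hφ ((meas_tot e).comp hφ) e).and
    (Measurable.forall fun N => Measurable.exists fun k => measurable_const.and ?_)
  have h1 : Measurable fun x => tot e (φ x) k :=
    (measurable_pi_apply k).comp ((meas_tot e).comp hφ)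
  have h2 : ∀ j, Measurable fun x => ψ x j := fun j => (measurable_pi_apply j).comp hψ
  exact (Measurable.exists fun i => (meas_prop₂ h1 (h2 _) fun a b => a < b).and
    (Measurable.forall fun j => measurable_const.imp
      (meas_prop₂ (h2 _) h1 fun a b => a ≤ b))).not.and (meas_prop₂ (h2 _) h1 fun a b => a ≤ b)

theorem exists_bin (x : B) : ∃ y : ℕ → Bool, TEq (bits y) x := by
  refine ⟨fun n => decide (x n.unpair.1 ≠ n.unpair.2), ?_, ?_⟩
  · have pe : Primrec₂ fun a c : ℕ => if a = c then 0 else 1 :=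
      Primrec.ite (Primrec.eq.comp Primrec.fst Primrec.snd) (Primrec.const 0) (Primrec.const 1)
    have := post₂ (app (TLe.refl x) (prim u1 x)) (prim u2 x) pe
    have e : (fun n : ℕ => if x n.unpair.1 = n.unpair.2 then 0 else 1) =
        bits fun n => decide (x n.unpair.1 ≠ n.unpair.2) := funext fun n => by
      by_cases h : x n.unpair.1 = n.unpair.2 <;> simp [bits, h]
    rw [← e]
    exact this
  · have h5 : ∀ n, ∃ m, bits (fun n => decide (x n.unpair.1 ≠ n.unpair.2)) (Nat.pair n m) = 0 :=
      fun n => ⟨x n, by simp [bits]⟩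
    have := find (TLe.refl _) h5
    have e : (fun n => Nat.find (h5 n)) = x := funext fun n => by
      have h6 := Nat.find_spec (h5 n)
      generalize Nat.find (h5 n) = m at h6
      simpa [bits] using (by simpa [bits] using h6 : x n = m).symm
    rw [e] at this
    exact this

theorem join_eo (x : B) : join (evens x) (odds x) = x := by
  funext n
  simp only [join, evens, odds]
  split_ifs with h <;> congr 1 <;> omega

theorem run_le_I {s u w : B} (hs : TLe s w) (hu : TLe u w) :
    TLe (run (strat s) (blind u)) w := by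
  rw [← join_eo (run _ _), odds_run]
  refine TLe.join ?_ hu
  have := (tc_RI.tle (join s u)).trans (hs.join hu)
  simpa only [RI, evens_join, odds_join] using this

theorem run_le_II {s u w : B} (hs : TLe s w) (hu : TLe u w) :
    TLe (run (blind u) (strat s)) w := by
  rw [← join_eo (run _ _), evens_run]
  refine TLe.join hu ?_
  have := (tc_RII.tle (join s u)).trans (hs.join hu)
  simpa only [RII, evens_join, odds_join] using this

theorem pr_dbl : Primrec₂ fun a b : ℕ => 2 * a + b :=
  Primrec.nat_add.comp (pr_double.comp Primrec.fst) Primrec.snd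

theorem pr_cons : Primrec₂ fun a b : ℕ => Nat.pair a b + 1 :=
  Primrec.succ.comp Primrec₂.natPair

theorem par_le {u w x : B} (hw : ∀ n, w n < 2) (h : ∀ n, x n = 2 * u n + w n) : TLe w x := by
  have := app (prim (Primrec.nat_mod.comp Primrec.id (Primrec.const 2)) x) (TLe.refl x)
  convert this using 2 with n
  have := hw n
  simp only [id, h]
  omega

/-! ### The second player wins -/

/-- one round on both boards -/
def stp (s y : B) (k e : ℕ) : ℕ :=
  Nat.pair
    (Nat.pair (s (Nat.pair (2 * (e.unpair.2 - 1).unpair.1 + y k) e.unpair.1 + 1))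
      (Nat.pair (2 * (e.unpair.2 - 1).unpair.1 + y k) e.unpair.1 + 1) + 1)
    (Nat.pair (s (Nat.pair (2 * s (Nat.pair (2 * (e.unpair.2 - 1).unpair.1 + y k) e.unpair.1 + 1)
      + y k) e.unpair.2 + 1))
      (Nat.pair (2 * s (Nat.pair (2 * (e.unpair.2 - 1).unpair.1 + y k) e.unpair.1 + 1) + y k)
        e.unpair.2 + 1) + 1)

def St (s y : B) (k : ℕ) : ℕ := Nat.rec 0 (fun k IH => stp s y k IH) k

def al (s y : B) : B := fun k => 2 * ((St s y k).unpair.2 - 1).unpair.1 + y k
def be (s y : B) : B := fun k => 2 * s (Nat.pair (al s y k) (St s y k).unpair.1 + 1) + y k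

theorem St_succ (s y : B) (k : ℕ) : St s y (k + 1) = stp s y k (St s y k) := rfl

theorem hist_two (u s : B) (k : ℕ) : hist (blind u) (strat s) (2 * (k + 1)) =
    s (Nat.pair (u k) (encode (hist (blind u) (strat s) (2 * k))) + 1) :: u k ::
      hist (blind u) (strat s) (2 * k) := by
  have h1 : (2 * k + 1) % 2 = 1 := by omega
  have e : hist (blind u) (strat s) (2 * k + 1) = u k :: hist (blind u) (strat s) (2 * k) := by
    simp [hist, blind, hist_length]
  rw [show 2 * (k + 1) = 2 * k + 1 + 1 from rfl, hist, e]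
  simp [h1, strat]

theorem run_odd (u s : B) (k : ℕ) : run (blind u) (strat s) (2 * k + 1) =
    s (Nat.pair (u k) (encode (hist (blind u) (strat s) (2 * k))) + 1) := by
  unfold run
  rw [show 2 * k + 1 + 1 = 2 * (k + 1) from rfl, hist_two]
  rfl

theorem St_eq (s y : B) (k : ℕ) : St s y k =
    Nat.pair (encode (hist (blind (al s y)) (strat s) (2 * k)))
      (encode (hist (blind (be s y)) (strat s) (2 * k))) := by
  induction k with
  | zero => rfl
  | succ k ih =>
    have e1 : (St s y k).unpair.1 = encode (hist (blind (al s y)) (strat s) (2 * k)) := by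
      rw [ih, Nat.unpair_pair]
    have e2 : (St s y k).unpair.2 = encode (hist (blind (be s y)) (strat s) (2 * k)) := by
      rw [ih, Nat.unpair_pair]
    rw [hist_two, hist_two, St_succ]
    simp only [encode_list_cons, encode_nat, ← e1, ← e2]
    rfl

theorem be_eq (s y : B) (k : ℕ) :
    be s y k = 2 * run (blind (al s y)) (strat s) (2 * k + 1) + y k := by
  rw [run_odd, be, St_eq, Nat.unpair_pair]

theorem al_eq (s y : B) (k : ℕ) :
    al s y (k + 1) = 2 * run (blind (be s y)) (strat s) (2 * k + 1) + y (k + 1) := by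
  rw [run_odd, al, St_eq, Nat.unpair_pair]
  simp only [hist_two (be s y), encode_list_cons, encode_nat, Nat.succ_sub_one, Nat.unpair_pair]

theorem run_le_St (s y : B) (k : ℕ) :
    run (blind (al s y)) (strat s) (2 * k + 1) ≤ St s y (k + 1) ∧
      run (blind (be s y)) (strat s) (2 * k + 1) ≤ St s y (k + 1) := by
  rw [run_odd, run_odd, St_eq s y (k + 1), hist_two, hist_two]
  simp only [encode_list_cons, encode_nat]
  exact ⟨((Nat.left_le_pair _ _).trans (Nat.le_succ _)).trans (Nat.left_le_pair _ _),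
    ((Nat.left_le_pair _ _).trans (Nat.le_succ _)).trans (Nat.right_le_pair _ _)⟩

theorem St_le {s y w : B} (hs : TLe s w) (hy : TLe y w) : TLe (St s y) w := by
  have hk := app hy (prim u1 w)
  have l1 := prim (u1.comp u2) w
  have l2 := prim (u2.comp u2) w
  have hd := prim (u1.comp (Primrec.nat_sub.comp (u2.comp u2) (Primrec.const 1))) w
  have m1 := post₂ (post₂ hd hk pr_dbl) l1 pr_cons
  have r1 := app hs m1
  have m2 := post₂ (post₂ r1 hk pr_dbl) l2 pr_cons
  have r2 := app hs m2
  have := recn (post₂ (post₂ r1 m1 pr_cons) (post₂ r2 m2 pr_cons) Primrec₂.natPair) 0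
  simp only [Nat.unpair_pair] at this
  exact this

theorem al_le {s y w : B} (hs : TLe s w) (hy : TLe y w) : TLe (al s y) w :=
  post₂ (app (prim (u1.comp (Primrec.nat_sub.comp u2 (Primrec.const 1))) w) (St_le hs hy)) hy pr_dbl

theorem be_le {s y w : B} (hs : TLe s w) (hy : TLe y w) : TLe (be s y) w :=
  post₂ (app hs (post₂ (al_le hs hy) (app (prim u1 w) (St_le hs hy)) pr_cons)) hy pr_dbl

theorem St_fin (s : B) (k : ℕ) : (Set.range fun y : ℕ → Bool => St s (bits y) k).Finite := by
  induction k with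
  | zero => exact (Set.finite_singleton 0).subset (by rintro _ ⟨y, rfl⟩; rfl)
  | succ k ih =>
    refine (Set.Finite.image2 (fun e (b : Bool) => stp s (fun _ => b.toNat) k e) ih
      Set.finite_univ).subset ?_
    rintro _ ⟨y, rfl⟩
    exact ⟨_, ⟨y, rfl⟩, y k, trivial, rfl⟩

theorem not_own_both {x x' : B} (h1 : ∀ k, x (2 * k + 1) ≤ x' (2 * k))
    (h2 : ∀ k, x' (2 * k + 1) ≤ x (2 * (k + 1))) (m : ℕ) : ¬ (Own x m ∧ Own x' m) := by
  rintro ⟨⟨i, a1, a2⟩, l, b1, b2⟩
  rcases lt_or_ge l i with h | h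
  · have := a2 (2 * (l + 1)) (by omega)
    have := h2 l
    omega
  · have := b2 (2 * i) (by omega)
    have := h1 i
    omega

theorem caseII {G : B → B} (hinv : ∀ x y, TEq x y → TEq (G x) (G y)) {s : B}
    (hs : ∀ u, ¬ Hit (G (run (blind u) (strat s))) (run (blind u) (strat s))) :
    ∃ h : B, ∀ x, TLe s x → ∀ M, TLe M (G x) → ∀ᶠ k in atTop, M k ≤ h k := by
  choose h hh using fun k => (St_fin s (k + 1)).bddAbove
  refine ⟨h, fun x hx M hM => ?_⟩
  obtain ⟨y, hy⟩ := exists_bin x
  have hb : ∀ n, bits y n < 2 := fun n => Bool.toNat_lt _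
  have key : ∀ u, TLe u x → (∃ u' : B, ∀ n, u n = 2 * u' n + bits y n) →
      ∀ᶠ k in atTop, Own (run (blind u) (strat s)) (M k) ∨
        M k < run (blind u) (strat s) (2 * k + 1) := by
    rintro u hu ⟨u', hu'⟩
    have e : TEq x (run (blind u) (strat s)) := by
      refine ⟨TLe.trans hy.2 ((par_le hb hu').trans ?_), run_le_II hx hu⟩
      simpa only [evens_run] using tc_evens.tle (run (blind u) (strat s))
    have := hs u
    simp only [Hit, not_exists, not_and, not_frequently] at this
    filter_upwards [this M (hM.trans (hinv _ _ e).1)] with k hk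
    by_contra hc
    push Not at hc
    exact hk hc.1 hc.2
  have ev : ∀ (u : B) k, run (blind u) (strat s) (2 * k) = u k := fun u k =>
    congrFun (evens_run (strat s) u) k
  filter_upwards [key _ (al_le hx hy.1) ⟨_, fun _ => rfl⟩, key _ (be_le hx hy.1) ⟨_, fun _ => rfl⟩]
    with k h1 h2
  have h3 : St s (bits y) (k + 1) ≤ h k := hh k ⟨y, rfl⟩
  have h4 := run_le_St s (bits y) k
  have h5 := not_own_both (x := run (blind (al s (bits y))) (strat s))
    (x' := run (blind (be s (bits y))) (strat s)) (fun k => by rw [ev, be_eq]; omega)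
    (fun k => by rw [ev, al_eq]; omega) (M k)
  rcases h1 with h1 | h1
  · rcases h2 with h2 | h2
    · exact absurd ⟨h1, h2⟩ h5
    · omega
  · omega

/-! ### The first player wins -/

theorem hist_fin (σ : List ℕ → ℕ) (b n : ℕ) :
    {l | ∃ u : B, (∀ i, 2 * i + 1 < n → u i ≤ b) ∧ hist σ (blind u) n = l}.Finite := by
  induction n with
  | zero => exact (Set.finite_singleton []).subset (by rintro _ ⟨u, -, rfl⟩; rfl)
  | succ n ih =>
    refine (Set.Finite.image2 (fun l a => (if n % 2 = 0 then σ l else a) :: l) ih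
      (Set.finite_Iic b)).subset ?_
    rintro _ ⟨u, hu, rfl⟩
    by_cases hn : n % 2 = 0
    · exact ⟨_, ⟨u, fun i hi => hu i (by omega), rfl⟩, 0, Nat.zero_le _, by simp [hist, hn]⟩
    · exact ⟨_, ⟨u, fun i hi => hu i (by omega), rfl⟩, u (n / 2), hu _ (by omega), by
        simp [hist, hn, blind, hist_length]⟩

theorem exists_bd (σ : List ℕ → ℕ) : ∃ g : ℕ → ℕ, ∀ b j, j ≤ b → ∀ u : B, (∀ i ≤ j, u i ≤ b) →
    run σ (blind u) (2 * (j + 1)) ≤ g b := by
  have : ∀ b, ∃ c, ∀ j, j ≤ b → ∀ u : B, (∀ i ≤ j, u i ≤ b) →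
      run σ (blind u) (2 * (j + 1)) ≤ c := by
    intro b
    obtain ⟨c, hc⟩ := (((Set.finite_Iic b).biUnion fun j _ => hist_fin σ b (2 * (j + 1))).image
      σ).bddAbove
    refine ⟨c, fun j hj u hu => hc ⟨hist σ (blind u) (2 * (j + 1)),
      Set.mem_biUnion hj ⟨u, fun i hi => hu i (by omega), rfl⟩, ?_⟩⟩
    simp [run_eq]
  exact Classical.skolem.1 this

/-- the number with binary digits `1 a₀ … a_(j-1)` -/
def tt (a : B) (j : ℕ) : ℕ := Nat.rec 1 (fun i IH => 2 * IH + a i) j

theorem tt_succ (a : B) (j : ℕ) : tt a (j + 1) = 2 * tt a j + a j := rfl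

theorem lt_tt (a : B) (j : ℕ) : j < tt a j := by
  induction j with
  | zero => exact Nat.one_pos
  | succ j ih => rw [tt_succ]; omega

theorem tt_mono (a : B) : StrictMono (tt a) := strictMono_nat_of_lt_succ fun j => by
  have := lt_tt a j
  rw [tt_succ]; omega

theorem tt_inj {a a' : ℕ → Bool} {j j' : ℕ} (h : tt (bits a) j = tt (bits a') j') :
    j = j' ∧ ∀ i < j, a i = a' i := by
  induction j generalizing j' with
  | zero =>
    cases j' with
    | zero => exact ⟨rfl, fun i hi => by omega⟩
    | succ j' =>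
      have := lt_tt (bits a') j'
      rw [tt_succ, show tt (bits a) 0 = 1 from rfl] at h
      omega
  | succ j ih =>
    cases j' with
    | zero =>
      have := lt_tt (bits a) j
      rw [tt_succ, show tt (bits a') 0 = 1 from rfl] at h
      omega
    | succ j' =>
      rw [tt_succ, tt_succ] at h
      have b1 : bits a j < 2 := Bool.toNat_lt _
      have b2 : bits a' j' < 2 := Bool.toNat_lt _
      obtain ⟨rfl, h2⟩ := ih (j' := j') (by omega)
      refine ⟨rfl, fun i hi => ?_⟩
      rcases Nat.lt_succ_iff_lt_or_eq.1 hi with h3 | rfl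
      · exact h2 i h3
      · have : bits a i = bits a' i := by omega
        revert this
        simp only [bits]
        cases a i <;> cases a' i <;> simp

theorem tt_le {a w : B} (ha : TLe a w) : TLe (tt a) w := by
  have := recn (post₂ (prim u2 w) (app ha (prim u1 w)) pr_dbl) 1
  simp only [Nat.unpair_pair] at this
  exact this

theorem coin_cyl (S : Set (ℕ → Bool)) (k : ℕ) (h : ∀ a ∈ S, ∀ a' ∈ S, ∀ i < k, a i = a' i) :
    coin S ≤ 2⁻¹ ^ k := by
  rcases S.eq_empty_or_nonempty with rfl | ⟨a, ha⟩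
  · simp
  have l : ∀ b : Bool, ProbabilityTheory.uniformOn (Set.univ : Set Bool) {b} = 2⁻¹ := fun b => by
    rw [ProbabilityTheory.uniformOn_univ, Measure.count_singleton]; simp
  have e := Measure.infinitePi_pi (fun _ : ℕ => ProbabilityTheory.uniformOn (Set.univ : Set Bool))
    (s := Finset.range k) (t := fun n => {a n}) fun _ _ => .of_discrete
  simp only [l, Finset.prod_const, Finset.card_range] at e
  exact e ▸ measure_mono fun c hc n hn => h c hc a ha n (by simpa using hn)

theorem caseI {G : B → B} (hinv : ∀ x y, TEq x y → TEq (G x) (G y))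
    (hfl : ∀ w, ∃ y : ℕ → Bool, TLe w (bits y) ∧ Flt G (bits y)) (s : B) :
    ∃ u, ¬ Hit (G (run (strat s) (blind u))) (run (strat s) (blind u)) := by
  obtain ⟨g, hg⟩ := exists_bd (strat s)
  let q : B := fun n => Nat.rec (strat s []) (fun i IH => g (2 * IH + 1 + i) + IH + 1) n
  have qs : ∀ n, q (n + 1) = g (2 * q n + 1 + n) + q n + 1 := fun _ => rfl
  have qm : StrictMono q := strictMono_nat_of_lt_succ fun n => by rw [qs]; omega
  obtain ⟨y, hy, v, hv⟩ := hfl (join s q)
  let w : (ℕ → Bool) → B := fun a => join (bits y) (bits a)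
  have hw : ∀ a n, w a n < 2 := fun a n => by
    simp only [w, join]
    split_ifs <;> exact Bool.toNat_lt _
  let u : (ℕ → Bool) → B := fun a j => 2 * q (tt (bits a) j) + w a j
  let x : (ℕ → Bool) → B := fun a => run (strat s) (blind (u a))
  have xo : ∀ a j, x a (2 * j + 1) = u a j := fun a j => congrFun (odds_run (strat s) (u a)) j
  have hx : ∀ a, TEq (x a) (w a) := fun a => by
    have h0 : TLe (join s q) (w a) := hy.trans (le_joinl _ _)
    refine ⟨run_le_I ((le_joinl _ _).trans h0) (post₂ (app ((le_joinr _ _).trans h0)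
      (tt_le (le_joinr _ _))) (TLe.refl _) pr_dbl),
      (par_le (x := u a) (u := fun j => q (tt (bits a) j)) (hw a) fun _ => rfl).trans ?_⟩
    simpa only [odds_run] using tc_odds.tle (run (strat s) (blind (u a)))
  have cell : ∀ a k m, ¬ Own (x a) m → x a (2 * k + 1) ≤ m →
      ∃ j, k ≤ j ∧ 2 * q (tt (bits a) j) ≤ m ∧ m < 2 * q (tt (bits a) j + 1) := by
    intro a k m h1 h2
    have um : StrictMono (u a) := strictMono_nat_of_lt_succ fun j => by
      have := qm (tt_mono (bits a) (Nat.lt_succ_self j))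
      have := hw a j
      simp only [u, Nat.succ_eq_add_one] at *
      omega
    have hex : ∃ j, m < u a j := ⟨m + 1, um.id_le (m + 1)⟩
    have f1 := Nat.find_spec hex
    have f2 := fun j => Nat.find_min hex (m := j)
    rw [xo] at h2
    have f3 : k < Nat.find hex := um.lt_iff_lt.1 (h2.trans_lt f1)
    obtain ⟨j, hj⟩ := Nat.exists_eq_succ_of_ne_zero (Nat.ne_zero_of_lt f3)
    rw [hj] at f1 f2 f3
    have f4 := not_lt.1 (f2 j (Nat.lt_succ_self j))
    refine ⟨j, by omega, le_trans (Nat.le_add_right _ _) f4, not_le.1 fun h3 => h1 ⟨j + 1, ?_, ?_⟩⟩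
    · rw [xo]; exact f1
    · intro i hi
      rcases Nat.even_or_odd' i with ⟨l, rfl | rfl⟩
      · cases l with
        | zero =>
          have : q 0 ≤ q (tt (bits a) j + 1) := qm.monotone (Nat.zero_le (tt (bits a) j + 1))
          have e : x a (2 * 0) = q 0 := rfl
          omega
        | succ l =>
          have b1 := lt_tt (bits a) l
          have b2 := hg (2 * q (tt (bits a) l) + 1 + tt (bits a) l) l (by omega) (u a) fun i hi => by
            have c1 := um.monotone hi
            have c2 := hw a l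
            simp only [u] at c1 ⊢
            omega
          have b3 := qs (tt (bits a) l)
          have b4 : q (tt (bits a) l + 1) ≤ q (tt (bits a) j + 1) :=
            qm.monotone (Nat.succ_le_succ ((tt_mono _).monotone (by omega)))
          simp only [x]
          omega
      · rw [xo]
        exact not_lt.1 (f2 l (by omega))
  have null : ∀ M : B, ∀ᵐ a ∂coin,
      ¬ ∃ᶠ k in atTop, ¬ Own (x a) (M k) ∧ x a (2 * k + 1) ≤ M k := by
    intro M
    refine measure_eq_zero_iff_ae_notMem.1 (measure_setOfPred_frequently_eq_zero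
      (p := fun k a => ¬ Own (x a) (M k) ∧ x a (2 * k + 1) ≤ M k) ?_)
    refine ne_top_of_le_ne_top ?_ (ENNReal.tsum_le_tsum fun k => coin_cyl _ k ?_)
    · rw [ENNReal.tsum_geometric]; simp
    · intro a ha a' ha' i hi
      obtain ⟨j, c1, c2, c3⟩ := cell a k _ ha.1 ha.2
      obtain ⟨j', -, d2, d3⟩ := cell a' k _ ha'.1 ha'.2
      have e1 : tt (bits a) j < tt (bits a') j' + 1 := qm.lt_iff_lt.1 (by omega)
      have e2 : tt (bits a') j' < tt (bits a) j + 1 := qm.lt_iff_lt.1 (by omega)
      exact (tt_inj (a := a) (a' := a') (j := j) (j' := j') (by omega)).2 i (by omega)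
  have : IsProbabilityMeasure coin := by unfold coin; infer_instance
  obtain ⟨a, h1, h2⟩ := (hv.and (ae_all_iff.2 fun e => null (tot e v))).exists
  refine ⟨u a, fun hh => ?_⟩
  obtain ⟨e, -, he⟩ := hit_iff.1 (hh.mono ((hinv _ _ (hx a)).trans h1).1)
  exact h2 e he

theorem bound {𝒜 : MeasurableSpace B} (h : Adequate 𝒜) {G : B → B}
    (hG : @Measurable B B 𝒜 MeasurableSpace.pi G) (hinv : ∀ x y, TEq x y → TEq (G x) (G y))
    {c : B} (hfl : ∀ z, TLe c z → Flt G z) :
    ∃ h c : B, ∀ x, TLe c x → ∀ M, TLe M (G x) → ∀ᶠ k in atTop, M k ≤ h k := by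
  rcases h.determined {x | Hit (G x) x}
    (measurableSet_setOfPred.2 (meas_hit hG (h.meas measurable_id))) with ⟨σ, hσ⟩ | ⟨τ, hτ⟩
  · obtain ⟨s, rfl⟩ := exists_strat σ
    obtain ⟨u, hu⟩ := caseI hinv (fun w => by
      obtain ⟨y, hy⟩ := exists_bin (join w c)
      exact ⟨y, (le_joinl _ _).trans hy.2, hfl _ ((le_joinr _ _).trans hy.2)⟩) s
    exact absurd (hσ _) hu
  · obtain ⟨s, rfl⟩ := exists_strat τ
    obtain ⟨b, hb⟩ := caseII hinv (s := s) fun u => hτ _
    exact ⟨b, s, hb⟩

end Pool.Agent.Lib.MP_fa224b_lc.D
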