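import Pool.Agent.Lib.MP_fa224b_lc.C.Final
import Pool.Agent.Lib.MP_fa224b_lc.D.Bound

namespace Pool.Agent.Lib.MP_fa224b_lc.D.DominatedVariant

open Pool.Agent.Lib.MP_fa224b_lc MeasureTheory Filter

/-- Let `F` be Turing invariant and not above the identity on a cone, and let the degree of `G x`
depend only on the degree of `F x` (for example `G = F`, or a jump of `F x` joined with a
parameter).  Then one function `h` eventually dominates every total function computable in `G x`,
for all `x` on a cone.  For Borel functions there is no determinacy hypothesis. -/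
theorem result (𝒜 : MeasurableSpace B) (h𝒜 : 𝒜 = MeasurableSpace.pi ∨ Adequate 𝒜) (F G : B → B)
    (hF : @Measurable B B 𝒜 MeasurableSpace.pi F) (hG : @Measurable B B 𝒜 MeasurableSpace.pi G)
    (hinv : ∀ x y, TEq x y → TEq (F x) (F y))
    (hFG : ∀ x y, TEq (F x) (F y) → TEq (G x) (G y))
    (hn : ¬ ∃ c, ∀ x, TLe c x → TLe x (F x)) :
    ∃ h c : B, ∀ x, TLe c x → ∀ M : B, TLe M (G x) → ∃ N, ∀ k, N ≤ k → M k ≤ h k := by
  have h : Adequate 𝒜 := h𝒜.elim (fun e => e ▸ BD.borel_adequate) fun h => h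
  obtain ⟨c, hc⟩ := C.finalForm h hF hinv hn
  have : IsProbabilityMeasure C.coin := by unfold C.coin; infer_instance
  obtain ⟨b, c', hb⟩ := D.bound h hG (fun x y e => hFG _ _ (hinv _ _ e)) (c := c) fun z hz => by
    obtain ⟨v, hv⟩ := hc z hz
    obtain ⟨a, ha⟩ := hv.exists
    exact ⟨_, hv.mono fun a' ha' => hFG _ _ (ha'.trans ha.symm)⟩
  exact ⟨b, c', fun x hx M hM => eventually_atTop.1 (hb x hx M hM)⟩

end Pool.Agent.Lib.MP_fa224b_lc.D.DominatedVariant
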